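import Pool.Agent.Helper71.UQ.Goals

/-!
# Project UQ (MP_9b2a83_an), packet UPP1
-/

set_option autoImplicit false

namespace Pool.Agent.Helper75.UQ.PkUPP1

open Pool.Agent.Helper39.Net
open Pool.Agent.Helper71.UQ

theorem num (d q T1 : ℕ) (A1 A2 g b : ℝ) (hd : 1 ≤ d) (hA1 : 1 ≤ A1) (hA2 : 1 ≤ A2)
    (hT : (T1 : ℝ) ≤ A1 ^ d * g) (h1 : ((q : ℝ) + 5) * g ≤ A2 ^ d * b) (h2 : 1 ≤ A2 ^ d * b) :
    1 + 2 * ((q : ℝ) + 5) * (3 * 2 ^ d * T1) ≤ (14 * A1 * A2) ^ d * b := by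
  have hq : (0 : ℝ) ≤ q := by positivity
  have e1 : 2 * ((q : ℝ) + 5) * (3 * 2 ^ d * T1) ≤ 6 * 2 ^ d * A1 ^ d * (((q : ℝ) + 5) * g) := by
    calc 2 * ((q : ℝ) + 5) * (3 * 2 ^ d * T1) ≤ 2 * ((q : ℝ) + 5) * (3 * 2 ^ d * (A1 ^ d * g)) := by
          gcongr
      _ = 6 * 2 ^ d * A1 ^ d * (((q : ℝ) + 5) * g) := by ring
  have e2 : 6 * 2 ^ d * A1 ^ d * (((q : ℝ) + 5) * g) ≤ 6 * 2 ^ d * A1 ^ d * (A2 ^ d * b) := by
    gcongr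
  have e3 : (1 : ℝ) ≤ 2 ^ d * A1 ^ d :=
    one_le_mul_of_one_le_of_one_le (one_le_pow₀ (by norm_num)) (one_le_pow₀ hA1)
  have e4 : A2 ^ d * b ≤ 2 ^ d * A1 ^ d * (A2 ^ d * b) :=
    le_mul_of_one_le_left (by linarith) e3
  have e5 : (7 : ℝ) ≤ 7 ^ d := le_self_pow₀ (by norm_num) (by omega)
  have e6 : 7 * (2 ^ d * A1 ^ d * (A2 ^ d * b)) ≤ 7 ^ d * (2 ^ d * A1 ^ d * (A2 ^ d * b)) :=
    mul_le_mul_of_nonneg_right e5 (by linarith)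
  have e7 : (14 * A1 * A2) ^ d * b = 7 ^ d * (2 ^ d * A1 ^ d * (A2 ^ d * b)) := by
    rw [show (14 : ℝ) * A1 * A2 = 7 * (2 * (A1 * A2)) by ring, mul_pow, mul_pow, mul_pow]
    ring
  rw [e7]
  linarith

theorem thm (h1 : G_NETZ) (h2 : G_GEO1) (h3 : G_SPAN) (h4 : G_NUM) : G_UPP1 := by
  obtain ⟨A1, hA1, H1⟩ := h1
  obtain ⟨h4a, A2, hA2, H4⟩ := h4
  refine ⟨14 * A1 * A2, by nlinarith, ?_⟩
  intro d c hd hc
  have hq6 : 6 ≤ qc c := le_max_left _ _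
  obtain ⟨T1, hT1, hN⟩ := H1 d (qc c + 8) hd (by omega)
  obtain ⟨k1, k2⟩ := H4 c d hc hd
  have hE : ∀ M : Finset (Fin d → ℝ), M.Nonempty →
      Embeds dOne M c (M.card * (1 + 2 * (qc c + 5) * (3 * 2 ^ d * T1))) := by
    intro M hM
    obtain ⟨S, hS1, hS2⟩ := h3 (Fin d → ℝ) dOne dOne_symm dOne_tri dOne_self dOne_pos
      (qc c) (3 * 2 ^ d * T1) (by omega) (by
        intro r hr Z
        obtain ⟨S, hS1, hS2⟩ := h2 d (qc c) T1 hd hN r hr Z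
        exact ⟨S, hS1, fun x hx y hy _ hxy => hS2 x hx y hy hxy⟩) M
    refine (embeds_of_reach dOne_symm dOne_tri dOne_self dOne_pos M hM c S ?_).mono hS1
    intro x hx y hy
    refine (hS2 x hx y hy).mono (mul_le_mul_of_nonneg_right ?_ (dOne_nonneg _ _))
    have := h4a c hc
    linarith
  refine csSup_le ⟨_, 2, le_rfl, rfl⟩ ?_
  rintro r ⟨n, hn, rfl⟩
  have g1 : n * (1 + 2 * (qc c + 5) * (3 * 2 ^ d * T1)) ∈ Enough (dOne (d := d)) n c := by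
    intro M hM
    have hne : M.Nonempty := Finset.card_pos.1 (by omega)
    have := hE M hne
    rwa [hM] at this
  have g2 : (EN (dOne (d := d)) n c : ℝ) ≤
      n * (1 + 2 * ((qc c : ℝ) + 5) * (3 * 2 ^ d * T1)) := by
    exact_mod_cast EN_le g1
  have hn0 : (0 : ℝ) < n := by exact_mod_cast (by omega : 0 < n)
  rw [div_le_iff₀ hn0]
  have hT1' : (T1 : ℝ) ≤ A1 ^ d * gr d ((qc c : ℝ) + 8) := by
    have := hT1
    push_cast at this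
    exact this
  have g3 := num d (qc c) T1 A1 A2 _ _ hd hA1 hA2 hT1' k1 k2
  calc _ ≤ _ := g2
    _ = (1 + 2 * ((qc c : ℝ) + 5) * (3 * 2 ^ d * T1)) * n := by ring
    _ ≤ _ := mul_le_mul_of_nonneg_right g3 hn0.le

end Pool.Agent.Helper75.UQ.PkUPP1
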